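import Pool.Agent.Helper19.PS.Defs

/-!
# Project PS, piece PS-10: symmetrisation and orthogonal invariance
-/

open MeasureTheory Set Metric Filter Module Matrix
open scoped NNReal Topology RealInnerProductSpace ENNReal Real

namespace Pool.Agent.Helper19.PS

open Pool.Agent.Helper20.VF (gm gw)

/-- the Gaussian integral as an integral on the product space. -/
private lemma ps10_II_prod {d : ℕ} (F : ℝ → ℝ → EuclideanSpace ℝ (Fin d) → ℝ)
    (hFm : Measurable (fun p : (ℝ × ℝ) × EuclideanSpace ℝ (Fin d) => F p.1.1 p.1.2 p.2)) :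
    II d F = ∫⁻ q : (ℝ × ℝ) × EuclideanSpace ℝ (Fin d),
      ENNReal.ofReal (F q.1.1 q.1.2 q.2
        * (gw q.2 * Real.exp (-(q.1.1 ^ 2 + q.1.2 ^ 2) / 2))) := by
  have hm : Measurable (fun q : (ℝ × ℝ) × EuclideanSpace ℝ (Fin d) =>
      ENNReal.ofReal (F q.1.1 q.1.2 q.2
        * (gw q.2 * Real.exp (-(q.1.1 ^ 2 + q.1.2 ^ 2) / 2)))) := by
    refine ENNReal.measurable_ofReal.comp (hFm.mul (Measurable.mul ?_ ?_))
    · exact (Pool.Agent.Helper20.VF.continuous_gw).measurable.comp measurable_snd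
    · exact (by fun_prop : Continuous (fun q : (ℝ × ℝ) × EuclideanSpace ℝ (Fin d) =>
        Real.exp (-(q.1.1 ^ 2 + q.1.2 ^ 2) / 2))).measurable
  exact (lintegral_prod _ hm.aemeasurable).symm

/-- coordinates. -/
private lemma ps10_mp (d : ℕ) :
    MeasurePreserving (fun q : (ℝ × ℝ) × EuclideanSpace ℝ (Fin d) =>
      (WithLp.toLp 2 (vec q.1.1 q.1.2 q.2.ofLp) : EuclideanSpace ℝ (Fin 2 ⊕ Fin d))) := by
  have h1 : MeasurePreserving (MeasurableEquiv.finTwoArrow (α := ℝ)).symm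
      (volume : Measure (ℝ × ℝ)) volume := (volume_preserving_finTwoArrow ℝ).symm _
  have h2 : MeasurePreserving (WithLp.ofLp : (EuclideanSpace ℝ (Fin d)) → (Fin d → ℝ)) volume
      volume := PiLp.volume_preserving_ofLp _
  have h3 := h1.prod h2
  have h4 : MeasurePreserving (MeasurableEquiv.sumPiEquivProdPi (fun _ : Fin 2 ⊕ Fin d => ℝ)).symm
      (volume.prod volume) volume := volume_measurePreserving_sumPiEquivProdPi_symm _
  have h5 : MeasurePreserving (WithLp.toLp 2 : ((Fin 2 ⊕ Fin d) → ℝ) →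
      EuclideanSpace ℝ (Fin 2 ⊕ Fin d)) volume volume := PiLp.volume_preserving_toLp _
  have h7 := h5.comp (h4.comp h3)
  have e : (fun q : (ℝ × ℝ) × EuclideanSpace ℝ (Fin d) =>
      (WithLp.toLp 2 (vec q.1.1 q.1.2 q.2.ofLp) : EuclideanSpace ℝ (Fin 2 ⊕ Fin d)))
      = ((WithLp.toLp 2) ∘
      (MeasurableEquiv.sumPiEquivProdPi (fun _ : Fin 2 ⊕ Fin d => ℝ)).symm ∘
        Prod.map (MeasurableEquiv.finTwoArrow (α := ℝ)).symm
          (WithLp.ofLp : (EuclideanSpace ℝ (Fin d)) → (Fin d → ℝ))) := by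
    funext q
    rfl
  rw [e]
  exact h7

private lemma ps10_norm {d : ℕ} (q : (ℝ × ℝ) × EuclideanSpace ℝ (Fin d)) :
    ‖(WithLp.toLp 2 (vec q.1.1 q.1.2 q.2.ofLp) : EuclideanSpace ℝ (Fin 2 ⊕ Fin d))‖ ^ 2
      = q.1.1 ^ 2 + q.1.2 ^ 2 + ‖q.2‖ ^ 2 := by
  rw [EuclideanSpace.norm_sq_eq, Fintype.sum_sum_type, Fin.sum_univ_two,
    EuclideanSpace.norm_sq_eq]
  simp [vec]

private lemma ps10_gw {d : ℕ} (q : (ℝ × ℝ) × EuclideanSpace ℝ (Fin d)) :
    gw (WithLp.toLp 2 (vec q.1.1 q.1.2 q.2.ofLp) : EuclideanSpace ℝ (Fin 2 ⊕ Fin d))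
      = gw q.2 * Real.exp (-(q.1.1 ^ 2 + q.1.2 ^ 2) / 2) := by
  unfold Pool.Agent.Helper20.VF.gw
  rw [ps10_norm, ← Real.exp_add]
  congr 1
  ring

/-- the Gaussian integral as an integral on the Euclidean space. -/
private lemma ps10_II_eucl {d : ℕ} (F : (Fin 2 ⊕ Fin d → ℝ) → ℝ) (hFm : Measurable F) :
    II d (fun z τ y => F (vec z τ y.ofLp))
      = ∫⁻ x : EuclideanSpace ℝ (Fin 2 ⊕ Fin d), ENNReal.ofReal (F x.ofLp * gw x) := by
  have hof : Measurable (fun x : EuclideanSpace ℝ (Fin 2 ⊕ Fin d) => x.ofLp) :=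
    (PiLp.volume_preserving_ofLp (Fin 2 ⊕ Fin d)).measurable
  have hm : Measurable (fun x : EuclideanSpace ℝ (Fin 2 ⊕ Fin d) =>
      ENNReal.ofReal (F x.ofLp * gw x)) :=
    ENNReal.measurable_ofReal.comp ((hFm.comp hof).mul
      (Pool.Agent.Helper20.VF.continuous_gw).measurable)
  rw [← (ps10_mp d).lintegral_comp hm, ps10_II_prod]
  · refine lintegral_congr fun q => ?_
    rw [ps10_gw]
  · exact (hFm.comp hof).comp (ps10_mp d).measurable

theorem II_rot {d : ℕ} (O : Matrix (Fin 2 ⊕ Fin d) (Fin 2 ⊕ Fin d) ℝ) (hO : Oᵀ * O = 1)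
    (F : (Fin 2 ⊕ Fin d → ℝ) → ℝ) (hFm : Measurable F) (hF0 : ∀ x, 0 ≤ F x) :
    II d (fun z τ y => F (O *ᵥ vec z τ y.ofLp)) = II d (fun z τ y => F (vec z τ y.ofLp)) := by
  have hO' : Measurable (fun x : Fin 2 ⊕ Fin d → ℝ => O *ᵥ x) :=
    (by fun_prop : Continuous (fun x : Fin 2 ⊕ Fin d → ℝ => O *ᵥ x)).measurable
  rw [ps10_II_eucl F hFm, ps10_II_eucl (fun x => F (O *ᵥ x)) (hFm.comp hO')]
  -- the orthogonal map as a linear isometry equivalence
  let L : EuclideanSpace ℝ (Fin 2 ⊕ Fin d) →ₗ[ℝ] EuclideanSpace ℝ (Fin 2 ⊕ Fin d) :=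
    Matrix.toEuclideanLin O
  have hL : ∀ x, (L x).ofLp = O *ᵥ x.ofLp := fun x => rfl
  have hLn : ∀ x, ‖L x‖ = ‖x‖ := by
    intro x
    have h1 : ‖L x‖ ^ 2 = ‖x‖ ^ 2 := by
      have h2 : ∀ y : EuclideanSpace ℝ (Fin 2 ⊕ Fin d), ‖y‖ ^ 2 = y.ofLp ⬝ᵥ y.ofLp := by
        intro y
        rw [EuclideanSpace.norm_sq_eq]
        simp [dotProduct, pow_two]
      rw [h2, h2, hL, Matrix.dotProduct_mulVec, Matrix.vecMul_mulVec, hO, Matrix.vecMul_one]
    have := congrArg Real.sqrt h1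
    rwa [Real.sqrt_sq (norm_nonneg _), Real.sqrt_sq (norm_nonneg _)] at this
  let Li : EuclideanSpace ℝ (Fin 2 ⊕ Fin d) →ₗᵢ[ℝ] EuclideanSpace ℝ (Fin 2 ⊕ Fin d) := ⟨L, hLn⟩
  let Le := Li.toLinearIsometryEquiv rfl
  have hLe : ∀ x, (Le x).ofLp = O *ᵥ x.ofLp := fun x => rfl
  have hof : Measurable (fun x : EuclideanSpace ℝ (Fin 2 ⊕ Fin d) => x.ofLp) :=
    (PiLp.volume_preserving_ofLp (Fin 2 ⊕ Fin d)).measurable
  have hm : Measurable (fun x : EuclideanSpace ℝ (Fin 2 ⊕ Fin d) =>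
      ENNReal.ofReal (F x.ofLp * gw x)) :=
    ENNReal.measurable_ofReal.comp ((hFm.comp hof).mul
      (Pool.Agent.Helper20.VF.continuous_gw).measurable)
  rw [← Le.measurePreserving.lintegral_comp hm]
  refine lintegral_congr fun x => ?_
  rw [hLe, Pool.Agent.Helper20.VF.gw, Pool.Agent.Helper20.VF.gw, LinearIsometryEquiv.norm_map]

private lemma ps10_flip {d : ℕ} (F : ℝ → ℝ → EuclideanSpace ℝ (Fin d) → ℝ)
    (hFm : Measurable (fun p : (ℝ × ℝ) × EuclideanSpace ℝ (Fin d) => F p.1.1 p.1.2 p.2))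
    (e1 e2 : ℝ → ℝ) (h1 : MeasurePreserving e1) (h2 : MeasurePreserving e2)
    (h1' : ∀ x, e1 x ^ 2 = x ^ 2) (h2' : ∀ x, e2 x ^ 2 = x ^ 2) :
    II d (fun z τ y => F (e1 z) (e2 τ) y) = II d F := by
  have h3 : MeasurePreserving (Prod.map (Prod.map e1 e2)
      (id : EuclideanSpace ℝ (Fin d) → EuclideanSpace ℝ (Fin d))) :=
    (h1.prod h2).prod (MeasurePreserving.id volume)
  have hm : Measurable (fun q : (ℝ × ℝ) × EuclideanSpace ℝ (Fin d) =>
      ENNReal.ofReal (F q.1.1 q.1.2 q.2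
        * (gw q.2 * Real.exp (-(q.1.1 ^ 2 + q.1.2 ^ 2) / 2)))) := by
    refine ENNReal.measurable_ofReal.comp (hFm.mul (Measurable.mul ?_ ?_))
    · exact (Pool.Agent.Helper20.VF.continuous_gw).measurable.comp measurable_snd
    · exact (by fun_prop : Continuous (fun q : (ℝ × ℝ) × EuclideanSpace ℝ (Fin d) =>
        Real.exp (-(q.1.1 ^ 2 + q.1.2 ^ 2) / 2))).measurable
  rw [ps10_II_prod F hFm, ← h3.lintegral_comp hm, ps10_II_prod]
  · refine lintegral_congr fun q => ?_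
    simp only [Prod.map_fst, Prod.map_snd, id_eq, h1', h2']
  · exact hFm.comp h3.measurable

theorem II_sym {d : ℕ} (F F' : ℝ → ℝ → EuclideanSpace ℝ (Fin d) → ℝ)
    (hFm : Measurable (fun p : (ℝ × ℝ) × EuclideanSpace ℝ (Fin d) => F p.1.1 p.1.2 p.2))
    (hF0 : ∀ z τ y, 0 ≤ F z τ y)
    (h : ∀ z τ y, z ≠ 0 → F z τ y + F (-z) τ y + F z (-τ) y + F (-z) (-τ) y ≤ 4 * F' z τ y) :
    II d F ≤ II d F' := by
  have hid : MeasurePreserving (fun x : ℝ => x) := MeasurePreserving.id volume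
  have hneg : MeasurePreserving (fun x : ℝ => -x) := Measure.measurePreserving_neg volume
  have a1 := ps10_flip F hFm (fun x => -x) (fun x => x) hneg hid (by simp) (by simp)
  have a2 := ps10_flip F hFm (fun x => x) (fun x => -x) hid hneg (by simp) (by simp)
  have a3 := ps10_flip F hFm (fun x => -x) (fun x => -x) hneg hneg (by simp) (by simp)
  have m1 : Measurable (fun p : (ℝ × ℝ) × EuclideanSpace ℝ (Fin d) => F (-p.1.1) p.1.2 p.2) :=
    hFm.comp (by fun_prop : Measurable (fun p : (ℝ × ℝ) × EuclideanSpace ℝ (Fin d) =>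
      ((-p.1.1, p.1.2), p.2)))
  have m2 : Measurable (fun p : (ℝ × ℝ) × EuclideanSpace ℝ (Fin d) => F p.1.1 (-p.1.2) p.2) :=
    hFm.comp (by fun_prop : Measurable (fun p : (ℝ × ℝ) × EuclideanSpace ℝ (Fin d) =>
      ((p.1.1, -p.1.2), p.2)))
  have m3 : Measurable (fun p : (ℝ × ℝ) × EuclideanSpace ℝ (Fin d) => F (-p.1.1) (-p.1.2) p.2) :=
    hFm.comp (by fun_prop : Measurable (fun p : (ℝ × ℝ) × EuclideanSpace ℝ (Fin d) =>
      ((-p.1.1, -p.1.2), p.2)))
  have hw : Measurable (fun q : (ℝ × ℝ) × EuclideanSpace ℝ (Fin d) =>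
      gw q.2 * Real.exp (-(q.1.1 ^ 2 + q.1.2 ^ 2) / 2)) := by
    refine Measurable.mul ?_ ?_
    · exact (Pool.Agent.Helper20.VF.continuous_gw).measurable.comp measurable_snd
    · exact (by fun_prop : Continuous (fun q : (ℝ × ℝ) × EuclideanSpace ℝ (Fin d) =>
        Real.exp (-(q.1.1 ^ 2 + q.1.2 ^ 2) / 2))).measurable
  -- the sum of the four integrals
  have hsum : II d F + II d (fun z τ y => F (-z) τ y) + II d (fun z τ y => F z (-τ) y)
      + II d (fun z τ y => F (-z) (-τ) y)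
      = II d (fun z τ y => F z τ y + F (-z) τ y + F z (-τ) y + F (-z) (-τ) y) := by
    rw [ps10_II_prod F hFm, ps10_II_prod _ m1, ps10_II_prod _ m2, ps10_II_prod _ m3,
      ps10_II_prod _ (((hFm.add m1).add m2).add m3),
      ← lintegral_add_left, ← lintegral_add_left, ← lintegral_add_left]
    · refine lintegral_congr fun q => ?_
      have hg : 0 ≤ gw q.2 * Real.exp (-(q.1.1 ^ 2 + q.1.2 ^ 2) / 2) :=
        mul_nonneg (Pool.Agent.Helper20.VF.gw_pos _).le (Real.exp_pos _).le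
      have p0 := mul_nonneg (hF0 q.1.1 q.1.2 q.2) hg
      have p1 := mul_nonneg (hF0 (-q.1.1) q.1.2 q.2) hg
      have p2 := mul_nonneg (hF0 q.1.1 (-q.1.2) q.2) hg
      have p3 := mul_nonneg (hF0 (-q.1.1) (-q.1.2) q.2) hg
      rw [← ENNReal.ofReal_add p0 p1, ← ENNReal.ofReal_add (by positivity) p2,
        ← ENNReal.ofReal_add (by positivity) p3]
      congr 1
      ring
    · exact ((ENNReal.measurable_ofReal.comp (hFm.mul hw)).add
        (ENNReal.measurable_ofReal.comp (m1.mul hw))).add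
        (ENNReal.measurable_ofReal.comp (m2.mul hw))
    · exact (ENNReal.measurable_ofReal.comp (hFm.mul hw)).add
        (ENNReal.measurable_ofReal.comp (m1.mul hw))
    · exact ENNReal.measurable_ofReal.comp (hFm.mul hw)
  rw [a1, a2, a3] at hsum
  have hle : II d (fun z τ y => F z τ y + F (-z) τ y + F z (-τ) y + F (-z) (-τ) y)
      ≤ 4 * II d F' := by
    have e4 : 4 * II d F' = II d (fun z τ y => 4 * F' z τ y) := by
      unfold II
      rw [← lintegral_const_mul' _ _ (by simp)]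
      refine lintegral_congr fun p => ?_
      rw [← lintegral_const_mul' _ _ (by simp)]
      refine lintegral_congr fun y => ?_
      rw [mul_assoc 4 (F' p.1 p.2 y), ENNReal.ofReal_mul (by norm_num : (0:ℝ) ≤ 4)]
      norm_num
    rw [e4]
    unfold II
    have hz : ∀ᵐ p : ℝ × ℝ, p.1 ≠ 0 := by
      have h0 : ∀ᵐ z : ℝ, z ≠ 0 := by
        rw [ae_iff]
        simp
      exact Measure.quasiMeasurePreserving_fst.ae h0
    refine lintegral_mono_ae ?_
    filter_upwards [hz] with p hp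
    refine lintegral_mono fun y => ?_
    refine ENNReal.ofReal_le_ofReal ?_
    exact mul_le_mul_of_nonneg_right (h p.1 p.2 y hp)
      (mul_nonneg (Pool.Agent.Helper20.VF.gw_pos _).le (Real.exp_pos _).le)
  rw [← hsum] at hle
  have h4 : II d F + II d F + II d F + II d F = 4 * II d F := by ring
  rw [h4] at hle
  exact (ENNReal.mul_le_mul_iff_right (by norm_num) (by simp)).1 hle

end Pool.Agent.Helper19.PS
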